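import Pool.Agent.H51.MFQ.S1

/-!
# Board mfq: row TPH (Taylor coefficients are homogeneous polynomials)
-/

set_option autoImplicit false

open Module

namespace Pool.MFQ

namespace H52

/-- the Taylor coefficient along a line from the power series -/
theorem tayE_eq {E : Type} [NormedAddCommGroup E] [NormedSpace ℂ E] {f : E → ℂ} {a : E}
    {p : FormalMultilinearSeries ℂ E ℂ} (h : HasFPowerSeriesAt f p a) (k : ℕ) (ξ : E) :
    tayE a f k ξ = p k (fun _ => ξ) := by
  set u : ℂ →L[ℂ] E := (ContinuousLinearMap.id ℂ ℂ).smulRight ξ with hu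
  have hux : ∀ s : ℂ, u s = s • ξ := fun s => rfl
  obtain ⟨r, hr⟩ := h
  have h1 : HasFPowerSeriesOnBall (fun y => f (a + y)) p 0 r := by
    have h2 := hr.comp_sub (-a)
    have h3 : a + -a = 0 := add_neg_cancel a
    rw [h3] at h2
    refine h2.congr fun y _ => ?_
    show f (y - -a) = f (a + y)
    rw [sub_neg_eq_add, add_comm]
  have h1' : HasFPowerSeriesOnBall (fun y => f (a + y)) p (u 0) r := by
    rw [hux, zero_smul]
    exact h1
  have h4 := h1'.compContinuousLinearMap
  have h5 := h4.factorial_smul (1 : ℂ) k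
  unfold tayE
  rw [iteratedDeriv_eq_iteratedFDeriv]
  have h6 : (fun s : ℂ => f (a + s • ξ)) = (fun y => f (a + y)) ∘ u := rfl
  rw [h6, ← h5]
  have h7 : (p.compContinuousLinearMap u) k (fun _ => (1 : ℂ)) = p k (fun _ => ξ) := by
    rw [FormalMultilinearSeries.compContinuousLinearMap_apply]
    congr 1
    funext i
    show u 1 = ξ
    rw [hux, one_smul]
  rw [h7, nsmul_eq_mul, ← mul_assoc, inv_mul_cancel₀, one_mul]
  exact_mod_cast k.factorial_ne_zero

end H52

theorem t_tph : TPHStmt := by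
  intro κ _ a f k hf
  classical
  obtain ⟨p, hp⟩ := hf
  refine ⟨∑ r : Fin k → κ, MvPolynomial.C (p k (fun i => Pi.single (r i) (1 : ℂ))) *
    ∏ i, MvPolynomial.X (r i), ?_, ?_⟩
  · apply MvPolynomial.IsHomogeneous.sum
    intro r _
    have h1 : (∏ i : Fin k, (MvPolynomial.X (r i) : MvPolynomial κ ℂ)).IsHomogeneous
        (∑ _i : Fin k, 1) :=
      MvPolynomial.IsHomogeneous.prod _ _ _ fun i _ => MvPolynomial.isHomogeneous_X ℂ (r i)
    have h2 := (MvPolynomial.isHomogeneous_C κ
      (p k (fun i => Pi.single (r i) (1 : ℂ)))).mul h1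
    simpa using h2
  · intro t
    rw [H52.tayE_eq hp k t, map_sum]
    have h1 : t = ∑ i, t i • (Pi.single i (1 : ℂ) : κ → ℂ) := by
      funext j
      simp [Finset.sum_apply, Pi.single_apply]
    have h2 : p k (fun _ => t) = p k (fun _ => ∑ i, t i • (Pi.single i (1 : ℂ) : κ → ℂ)) := by
      rw [← h1]
    rw [h2]
    have h3 := (p k).toMultilinearMap.map_sum
      (g := fun (_ : Fin k) (i : κ) => t i • (Pi.single i (1 : ℂ) : κ → ℂ))
    refine h3.trans (Finset.sum_congr rfl fun r _ => ?_)
    have h4 := (p k).toMultilinearMap.map_smul_univ (fun i => t (r i))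
      (fun i => (Pi.single (r i) (1 : ℂ) : κ → ℂ))
    refine h4.trans ?_
    rw [map_mul, MvPolynomial.eval_C, map_prod, smul_eq_mul, mul_comm]
    simp only [MvPolynomial.eval_X]
    rfl

end Pool.MFQ
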