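import Pool.Agent.H51.MFQ.S1

/-!
# Board mfq: row ASM (the assembly)
-/

set_option autoImplicit false

open Module

namespace Pool.MFQ

namespace H52A

variable {𝔤 : Type} [LieRing 𝔤] [LieAlgebra ℂ 𝔤]

theorem dualC_basis' {κ : Type} [Fintype κ] (b : Basis κ ℂ 𝔤) (t : κ → ℂ) (i : κ) :
    dualC b t (b i) = t i := by
  unfold dualC
  exact b.constr_basis ℂ t i

theorem dualC_apply' {κ : Type} [Fintype κ] (b : Basis κ ℂ 𝔤) (t : κ → ℂ) (x : 𝔤) :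
    dualC b t x = ∑ k, b.repr x k * t k := by
  conv_lhs => rw [← b.sum_repr x]
  rw [map_sum]
  refine Finset.sum_congr rfl fun k _ => ?_
  rw [map_smul, dualC_basis', smul_eq_mul]

theorem evL_dualC {σ τ : Type} [Fintype σ] [Fintype τ] (b : Basis (σ ⊕ τ) ℂ 𝔤) (P : Lm σ τ)
    (t : σ ⊕ τ → ℂ) : evL b P (dualC b t) = evT P t := by
  unfold evL evT
  simp only [dualC_basis']

theorem agree {V : LieIdeal ℂ 𝔤} {σ τ : Type} [Fintype σ] [Fintype τ]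
    (b : Basis (σ ⊕ τ) ℂ 𝔤) (hb : Adp V b) {t t' : σ ⊕ τ → ℂ} (h : t - t' ∈ TT σ τ) :
    ∀ v ∈ V, dualC b t v = dualC b t' v := by
  intro v hv
  rw [dualC_apply', dualC_apply', Fintype.sum_sum_type, Fintype.sum_sum_type]
  have h1 : ∀ i : τ, b.repr v (Sum.inr i) = 0 := hb.2 v hv
  have h2 : ∀ l : σ, t (Sum.inl l) = t' (Sum.inl l) := by
    intro l
    have h3 := h l
    rw [Pi.sub_apply, sub_eq_zero] at h3
    exact h3
  simp only [h1, zero_mul, Finset.sum_const_zero, add_zero, h2]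

/-- composition with the coordinates -/
noncomputable def pull {E F : Type} (φ : F → E) : (E → ℂ) →ₐ[ℂ] (F → ℂ) :=
  Pi.algHom ℂ (fun _ => ℂ) fun ξ => Pi.evalAlgHom ℂ (fun _ => ℂ) (φ ξ)

theorem pull_apply {E F : Type} (φ : F → E) (f : E → ℂ) : pull φ f = fun ξ => f (φ ξ) := rfl

end H52A

theorem t_asm (hTHA : THAStmt) (hBAS : BASStmt) (hSLI : SLIStmt) (hTAY : TAYStmt)
    (hTRU : TRUStmt) (hTPO : TPOStmt) (hOPC : OPCStmt) (hTR2 : TR2Stmt)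
    (hCOM : COMStmt) (hPOI : POIStmt) (hSTB : STBStmt) (hSEM : SEMStmt) : MainStmt := by
  intro 𝔤 _ _ _ V hAb hC a hGen
  obtain ⟨p, q, b, hb⟩ := hBAS 𝔤 V
  obtain ⟨hcl, _, _⟩ := hOPC 𝔤 (Fin p ⊕ Fin q) b
  obtain ⟨hst1, hst2, hst3, hst4⟩ := hSTB 𝔤 V (Fin p) (Fin q) b hb
  set a0 : Fin p ⊕ Fin q → ℂ := (dualC b).symm a with ha0
  have haa : dualC b a0 = a := by rw [ha0, LinearEquiv.apply_symm_apply]
  have hG0 : Gen V (dualC b a0) := by rw [haa]; exact hGen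
  have hgen := hSEM 𝔤 V (Fin p ⊕ Fin q) b a0 hG0
  -- dimensions
  have hstab : ∀ t, Gen V (dualC b t) → finrank ℂ (stab (dualC b t)) = finrank ℂ (stab a) :=
    fun t ht => le_antisymm (ht.1 a) (hGen.1 _)
  have hinf : ∀ t, Gen V (dualC b t) →
      finrank ℂ (stab (dualC b t) ⊓ V.toSubmodule : Submodule ℂ 𝔤) =
        finrank ℂ (stab a ⊓ V.toSubmodule : Submodule ℂ 𝔤) :=
    fun t ht => le_antisymm (ht.2 a) (hGen.2 _)
  have hsup : ∀ t, Gen V (dualC b t) →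
      finrank ℂ (stab (dualC b t) ⊔ V.toSubmodule : Submodule ℂ 𝔤) =
        finrank ℂ (stab a ⊔ V.toSubmodule : Submodule ℂ 𝔤) := by
    intro t ht
    have h1 := Submodule.finrank_sup_add_finrank_inf_eq (stab (dualC b t)) V.toSubmodule
    have h2 := Submodule.finrank_sup_add_finrank_inf_eq (stab a) V.toSubmodule
    have h3 := hstab t ht
    have h4 := hinf t ht
    omega
  set m : ℕ := finrank ℂ (NN (opA b) a0) with hm
  set k : ℕ := finrank ℂ (NN (opA b) a0 ⊓ TT (Fin p) (Fin q) :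
    Submodule ℂ (Fin p ⊕ Fin q → ℂ)) with hk
  have hNN : ∀ᶠ ξ in nhds a0, finrank ℂ (NN (opA b) ξ) = m := by
    filter_upwards [hgen] with t ht
    have h1 := hst1 t
    have h2 := hst1 a0
    have h3 := hstab t ht
    have h4 := hstab a0 hG0
    omega
  have hNT : ∀ᶠ ξ in nhds a0, finrank ℂ (NN (opA b) ξ ⊓ TT (Fin p) (Fin q) :
      Submodule ℂ (Fin p ⊕ Fin q → ℂ)) = k := by
    filter_upwards [hgen] with t ht
    have h1 := hst2 t
    have h2 := hst2 a0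
    have h3 := hsup t ht
    have h4 := hsup a0 hG0
    omega
  have hE : finrank ℂ (Fin p ⊕ Fin q → ℂ) = finrank ℂ 𝔤 := by
    rw [finrank_fintype_fun_eq_card, finrank_eq_card_basis b]
  have hrm : finrank ℂ (stab a) + m = finrank ℂ (Fin p ⊕ Fin q → ℂ) := by
    have h2 := hst1 a0
    have h4 := hstab a0 hG0
    omega
  obtain ⟨F, hF1, hF2⟩ := hSLI (Fin p ⊕ Fin q → ℂ) (Fin p ⊕ Fin q) (opA b) a0 m
    (finrank ℂ (stab a)) hcl hNN hrm
  have hU : ∃ U ∈ nhds a0, ∀ ξ ∈ U, ∀ ξ' ∈ U, ξ - ξ' ∈ TT (Fin p) (Fin q) →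
      NN (opA b) ξ ⊓ TT (Fin p) (Fin q) = NN (opA b) ξ' ⊓ TT (Fin p) (Fin q) := by
    refine ⟨{t | Gen V (dualC b t)}, hgen, fun t ht t' ht' hd => ?_⟩
    exact hst3 t t' (hC _ _ ht ht' (H52A.agree b hb hd))
  obtain ⟨G, hG1, hG2, hG3⟩ := hTRU (Fin p ⊕ Fin q → ℂ) (Fin p ⊕ Fin q) (opA b) a0 m k
    (finrank ℂ (stab a)) (TT (Fin p) (Fin q)) F hNN hrm hF1 hF2 hst4 hNT hU
  have hP : ∀ jj : Fin (finrank ℂ (stab a)) × ℕ, ∃ P : Lm (Fin p) (Fin q),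
      HomL (jj.2 + 1) P ∧ tayE a0 (G jj.1) (jj.2 + 1) = evT P := by
    intro jj
    exact hTPO (Fin p) (Fin q) a0 (G jj.1) (jj.2 + 1) (by omega) (hG1 jj.1).1 (hG3 jj.1)
  choose P hP1 hP2 using hP
  have hMF : MF a = Algebra.adjoin ℂ (Set.range fun jj => evL b (P jj)) := by
    apply hTR2 𝔤 (Fin p ⊕ Fin q) b a
    · rintro _ ⟨jj, rfl⟩
      refine ⟨G jj.1, jj.2 + 1, hG1 jj.1, by omega, fun t => ?_⟩
      show evL b (P jj) (dualC b t) = tayE a0 (G jj.1) (jj.2 + 1) t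
      rw [H52A.evL_dualC, hP2]
    · intro f k' hf hk'
      have h1 := hTAY (Fin p ⊕ Fin q → ℂ) (Fin p ⊕ Fin q) (opA b) a0 m
        (finrank ℂ (stab a)) G hNN hrm hG1 hG2 k' f hk' hf
      have h2 : (fun ξ => tayE ((dualC b).symm a) f k' ((dualC b).symm ξ)) =
          H52A.pull (fun ξ => (dualC b).symm ξ) (tayE a0 f k') := rfl
      rw [h2]
      have h3 : H52A.pull (fun ξ => (dualC b).symm ξ) (tayE a0 f k') ∈
          Subalgebra.map (H52A.pull fun ξ => (dualC b).symm ξ)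
            (Algebra.adjoin ℂ {P : (Fin p ⊕ Fin q → ℂ) → ℂ |
              ∃ (j : Fin (finrank ℂ (stab a))) (i : ℕ), 1 ≤ i ∧ P = tayE a0 (G j) i}) :=
        Subalgebra.mem_map.2 ⟨_, h1, rfl⟩
      rw [AlgHom.map_adjoin] at h3
      refine Algebra.adjoin_mono ?_ h3
      rintro _ ⟨_, ⟨j, i, hi, rfl⟩, rfl⟩
      refine ⟨(j, i - 1), ?_⟩
      have h4 := hP2 (j, i - 1)
      have h5 : i - 1 + 1 = i := by omega
      simp only [h5] at h4
      rw [h4, H52A.pull_apply]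
      funext ξ
      show evL b (P (j, i - 1)) ξ = evT (P (j, i - 1)) ((dualC b).symm ξ)
      rw [← H52A.evL_dualC b, LinearEquiv.apply_symm_apply]
  have hbr : ∀ i j, brG (DD b) (cc b) (bb b) (P i) (P j) = 0 := by
    intro i j
    refine hPOI 𝔤 V (Fin p) (Fin q) b (P i) (P j) hAb hb fun t => ?_
    rw [← hP2, ← hP2]
    exact hCOM 𝔤 (Fin p ⊕ Fin q) b a0 (G i.1) (G j.1) (i.2 + 1) (j.2 + 1) (hG1 i.1) (hG1 j.1)
      (by omega) (by omega) t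
  obtain ⟨A, hA1, hA2, hA3⟩ := hTHA 𝔤 V (Fin p) (Fin q) (Fin (finrank ℂ (stab a)) × ℕ) b P
    (fun jj => jj.2 + 1) hAb hb (fun j => by omega) hP1 hbr
  refine ⟨A, hA1, ?_, ?_⟩
  · intro u hu hu0
    obtain ⟨k', G', h1, h2, h3⟩ := hA2 u hu hu0
    exact ⟨k', G', h1, by rw [hMF]; exact h2, h3⟩
  · rw [hMF]
    exact hA3

end Pool.MFQ
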