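import Pool.Agent.H51.MFQ.S1

/-!
# Board mfq: rows OPC, TR1, TR2
-/

set_option autoImplicit false

open Module

namespace Pool.MFQ

namespace H52

variable {𝔤 : Type} [LieRing 𝔤] [LieAlgebra ℂ 𝔤] {κ : Type} [Fintype κ]

theorem opA_apply (b : Basis κ ℂ 𝔤) (i j : κ) (t : κ → ℂ) :
    opA b i t j = ∑ k, (b.repr ⁅b i, b j⁆ k) * t k := by
  simp [opA, LinearMap.sum_apply]

theorem dualC_basis (b : Basis κ ℂ 𝔤) (t : κ → ℂ) (i : κ) : dualC b t (b i) = t i := by
  unfold dualC
  exact b.constr_basis ℂ t i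

theorem dualC_apply (b : Basis κ ℂ 𝔤) (t : κ → ℂ) (x : 𝔤) :
    dualC b t x = ∑ k, b.repr x k * t k := by
  conv_lhs => rw [← b.sum_repr x]
  rw [map_sum]
  refine Finset.sum_congr rfl fun k _ => ?_
  rw [map_smul, dualC_basis, smul_eq_mul]

theorem dualC_opA (b : Basis κ ℂ 𝔤) (i : κ) (t : κ → ℂ) :
    dualC b (opA b i t) = coad (b i) (dualC b t) := by
  refine b.ext fun j => ?_
  rw [dualC_basis, opA_apply]
  show _ = dualC b t ⁅b i, b j⁆
  rw [dualC_apply]

theorem coad_apply (x y : 𝔤) (ξ : Dual ℂ 𝔤) : coad x ξ y = ξ ⁅x, y⁆ := rfl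

theorem coad_sum (ξ : Dual ℂ 𝔤) (c : κ → ℂ) (v : κ → 𝔤) :
    coad (∑ k, c k • v k) ξ = ∑ k, c k • coad (v k) ξ := by
  ext y
  rw [coad_apply, sum_lie, map_sum, LinearMap.sum_apply]
  refine Finset.sum_congr rfl fun k _ => ?_
  rw [smul_lie, map_smul, LinearMap.smul_apply, coad_apply]

theorem lieCl (b : Basis κ ℂ 𝔤) : LieCl (opA b) := by
  intro i j
  refine ⟨fun k => -(b.repr ⁅b i, b j⁆ k), fun t => ?_⟩
  apply (dualC b).injective
  rw [map_sub, map_sum, dualC_opA, dualC_opA, dualC_opA, dualC_opA]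
  have h1 : ∑ k, (dualC b) (-(b.repr ⁅b i, b j⁆ k) • opA b k t) =
      coad (-⁅b i, b j⁆) (dualC b t) := by
    conv_rhs => rw [← b.sum_repr ⁅b i, b j⁆, ← Finset.sum_neg_distrib]
    have h2 : ∀ k, -((b.repr ⁅b i, b j⁆) k • b k) = (-(b.repr ⁅b i, b j⁆) k) • b k := by
      intro k; rw [neg_smul]
    simp only [h2]
    rw [coad_sum]
    refine Finset.sum_congr rfl fun k _ => ?_
    rw [map_smul, dualC_opA]
  rw [h1]
  ext y
  rw [LinearMap.sub_apply, coad_apply, coad_apply, coad_apply, coad_apply, coad_apply,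
    ← map_sub]
  congr 1
  rw [neg_lie, lie_lie]
  abel

theorem opA_diag (b : Basis κ ℂ 𝔤) (i : κ) (t : κ → ℂ) : opA b i t i = 0 := by
  rw [opA_apply, lie_self]
  simp

/-- any two linear coordinate systems differ by a continuous linear equivalence -/
noncomputable def chg {n : ℕ} (b : Basis κ ℂ 𝔤) (e : (Fin n → ℂ) ≃ₗ[ℂ] Dual ℂ 𝔤) :
    (κ → ℂ) ≃L[ℂ] (Fin n → ℂ) := ((dualC b).trans e.symm).toContinuousLinearEquiv

theorem chg_apply {n : ℕ} (b : Basis κ ℂ 𝔤) (e : (Fin n → ℂ) ≃ₗ[ℂ] Dual ℂ 𝔤) (t : κ → ℂ) :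
    chg b e t = e.symm (dualC b t) := rfl

theorem chg_symm_apply {n : ℕ} (b : Basis κ ℂ 𝔤) (e : (Fin n → ℂ) ≃ₗ[ℂ] Dual ℂ 𝔤)
    (t : Fin n → ℂ) : (chg b e).symm t = (dualC b).symm (e t) := rfl

/-- numbered coordinates -/
noncomputable def num (b : Basis κ ℂ 𝔤) : (Fin (Fintype.card κ) → ℂ) ≃ₗ[ℂ] Dual ℂ 𝔤 :=
  (LinearEquiv.funCongrLeft ℂ ℂ (Fintype.equivFin κ)).trans (dualC b)

theorem anNear_iff (b : Basis κ ℂ 𝔤) (a : Dual ℂ 𝔤) (f : Dual ℂ 𝔤 → ℂ) :
    AnNear a f ↔ AnalyticAt ℂ (fun t => f (dualC b t)) ((dualC b).symm a) := by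
  constructor
  · rintro ⟨n, e, h⟩
    have h1 : AnalyticAt ℂ (chg b e) ((dualC b).symm a) :=
      (chg b e).toContinuousLinearMap.analyticAt _
    have h2 : chg b e ((dualC b).symm a) = e.symm a := by
      rw [chg_apply, LinearEquiv.apply_symm_apply]
    rw [← h2] at h
    have h3 := h.comp h1
    refine h3.congr (Filter.Eventually.of_forall fun t => ?_)
    show f (e (chg b e t)) = f (dualC b t)
    rw [chg_apply, LinearEquiv.apply_symm_apply]
  · intro h
    refine ⟨Fintype.card κ, num b, ?_⟩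
    have h1 : AnalyticAt ℂ (chg b (num b)).symm ((num b).symm a) :=
      (chg b (num b)).symm.toContinuousLinearMap.analyticAt _
    have h2 : (chg b (num b)).symm ((num b).symm a) = (dualC b).symm a := by
      rw [chg_symm_apply, LinearEquiv.apply_symm_apply]
    rw [← h2] at h
    have h3 := h.comp h1
    refine h3.congr (Filter.Eventually.of_forall fun t => ?_)
    show f (dualC b ((chg b (num b)).symm t)) = f (num b t)
    rw [chg_symm_apply, LinearEquiv.apply_symm_apply]

theorem near_iff (b : Basis κ ℂ 𝔤) (a : Dual ℂ 𝔤) (P : Dual ℂ 𝔤 → Prop) :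
    Near a P ↔ ∀ᶠ t in nhds ((dualC b).symm a), P (dualC b t) := by
  constructor
  · rintro ⟨n, e, h⟩
    have h1 : Filter.Tendsto (chg b e) (nhds ((dualC b).symm a)) (nhds (e.symm a)) := by
      have h2 : chg b e ((dualC b).symm a) = e.symm a := by
        rw [chg_apply, LinearEquiv.apply_symm_apply]
      rw [← h2]
      exact (chg b e).continuous.tendsto _
    filter_upwards [h1.eventually h] with t ht
    rwa [chg_apply, LinearEquiv.apply_symm_apply] at ht
  · intro h
    refine ⟨Fintype.card κ, num b, ?_⟩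
    have h1 : Filter.Tendsto (chg b (num b)).symm (nhds ((num b).symm a))
        (nhds ((dualC b).symm a)) := by
      have h2 : (chg b (num b)).symm ((num b).symm a) = (dualC b).symm a := by
        rw [chg_symm_apply, LinearEquiv.apply_symm_apply]
      rw [← h2]
      exact (chg b (num b)).symm.continuous.tendsto _
    filter_upwards [h1.eventually h] with t ht
    rwa [chg_symm_apply, LinearEquiv.apply_symm_apply] at ht

theorem hasDeriv_line {E : Type} [NormedAddCommGroup E] [NormedSpace ℂ E] {F : E → ℂ} {t : E}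
    (h : DifferentiableAt ℂ F t) (v : E) :
    HasDerivAt (fun s : ℂ => F (t + s • v)) (fderiv ℂ F t v) 0 := by
  have h1 : HasDerivAt (fun s : ℂ => t + s • v) ((1 : ℂ) • v) 0 :=
    ((hasDerivAt_id (0 : ℂ)).smul_const v).const_add t
  rw [one_smul] at h1
  have h2 : HasFDerivAt F (fderiv ℂ F t) (t + (0 : ℂ) • v) := by
    rw [zero_smul, add_zero]
    exact h.hasFDerivAt
  exact h2.comp_hasDerivAt (0 : ℂ) h1

end H52

theorem t_opc : OPCStmt := by
  intro 𝔤 _ _ κ _ b
  exact ⟨H52.lieCl b, H52.dualC_opA b, H52.opA_diag b⟩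

theorem t_tr1 : TR1Stmt := by
  intro 𝔤 _ _ κ _ b a f
  unfold LocInv InvAt
  rw [H52.anNear_iff b, H52.near_iff b]
  refine and_congr_right fun han => ?_
  have hd : ∀ᶠ t in nhds ((dualC b).symm a),
      DifferentiableAt ℂ (fun t => f (dualC b t)) t := by
    filter_upwards [han.eventually_analyticAt] with t ht
    exact ht.differentiableAt
  have key : ∀ t : κ → ℂ, DifferentiableAt ℂ (fun t => f (dualC b t)) t → ∀ x : 𝔤,
      HasDerivAt (fun s : ℂ => f (dualC b t + s • coad x (dualC b t)))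
        (fderiv ℂ (fun t => f (dualC b t)) t (∑ k, b.repr x k • opA b k t)) 0 := by
    intro t ht x
    have h1 := H52.hasDeriv_line ht (∑ k, b.repr x k • opA b k t)
    have h2 : (fun s : ℂ => f (dualC b (t + s • ∑ k, b.repr x k • opA b k t))) =
        fun s : ℂ => f (dualC b t + s • coad x (dualC b t)) := by
      funext s
      congr 1
      rw [map_add, map_smul, map_sum]
      congr 2
      conv_rhs => rw [← b.sum_repr x]
      rw [H52.coad_sum]
      refine Finset.sum_congr rfl fun k _ => ?_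
      rw [map_smul, H52.dualC_opA]
    rw [← h2]
    exact h1
  constructor
  · intro h
    filter_upwards [h, hd] with t ht htd i
    have h1 := key t htd (b i)
    have h2 := (ht (b i)).unique h1
    have h3 : ∑ k, b.repr (b i) k • opA b k t = opA b i t := by
      classical
      rw [Finset.sum_eq_single i]
      · simp
      · intro k _ hk
        rw [Basis.repr_self, Finsupp.single_eq_of_ne hk, zero_smul]
      · intro hi
        exact absurd (Finset.mem_univ i) hi
    rw [h3] at h2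
    exact h2.symm
  · intro h
    filter_upwards [h, hd] with t ht htd x
    have h1 := key t htd x
    have h2 : fderiv ℂ (fun t => f (dualC b t)) t (∑ k, b.repr x k • opA b k t) = 0 := by
      rw [map_sum]
      refine Finset.sum_eq_zero fun k _ => ?_
      rw [map_smul, ht k, smul_zero]
    rw [h2] at h1
    exact h1

theorem t_tr2 : TR2Stmt := by
  intro 𝔤 _ _ κ _ b a S hS hF
  have htay : ∀ (f : Dual ℂ 𝔤 → ℂ) (k : ℕ) (ξ : Dual ℂ 𝔤), taylorF a f k ξ =
      tayE ((dualC b).symm a) (fun t => f (dualC b t)) k ((dualC b).symm ξ) := by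
    intro f k ξ
    unfold taylorF tayE
    congr 2
    funext s
    show f (a + s • ξ) = f (dualC b ((dualC b).symm a + s • (dualC b).symm ξ))
    rw [map_add, map_smul, LinearEquiv.apply_symm_apply, LinearEquiv.apply_symm_apply]
  unfold MF
  apply le_antisymm
  · apply Algebra.adjoin_le
    rintro P ⟨f, k, hf, hk, rfl⟩
    have h1 := (t_tr1 𝔤 κ b a f).1 hf
    have h2 := hF _ k h1 hk
    have h3 : taylorF a f k = fun ξ =>
        tayE ((dualC b).symm a) (fun t => f (dualC b t)) k ((dualC b).symm ξ) := by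
      funext ξ
      exact htay f k ξ
    rw [h3]
    exact h2
  · apply Algebra.adjoin_mono
    intro P hP
    obtain ⟨F, k, hF1, hk, hPF⟩ := hS P hP
    refine ⟨fun ξ => F ((dualC b).symm ξ), k, ?_, hk, ?_⟩
    · rw [t_tr1 𝔤 κ b a]
      have h1 : (fun t => F ((dualC b).symm (dualC b t))) = F := by
        funext t
        rw [LinearEquiv.symm_apply_apply]
      rw [h1]
      exact hF1
    · funext ξ
      rw [htay]
      have h1 : (fun t => F ((dualC b).symm (dualC b t))) = F := by
        funext t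
        rw [LinearEquiv.symm_apply_apply]
      rw [h1, ← hPF, LinearEquiv.apply_symm_apply]

end Pool.MFQ
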